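import Pool.Agent.H21.CflDefs
import Pool.Agent.H21.CflMain

set_option autoImplicit false

open Pool.Agent.H21.Cfl

namespace Pool.Agent.Results.MP_51f845_lc.NotEquivalent

/-- There is a context-free language `L` of nonempty words over a three-letter alphabet that is
periodically unavoidable but not unavoidable; moreover there is an infinite word `x` none of whose
finite subwords `x(a) x(a+1) ... x(a+n-1)` is in `L`. -/
theorem result : ∃ L : Language (Fin 3), L.IsContextFree ∧ [] ∉ L ∧ PeriodicallyUnavoidable L ∧
    ¬ Unavoidable L ∧
    ∃ x : ℕ → Fin 3, ∀ a n : ℕ, (List.range n).map (fun i => x (a + i)) ∉ L :=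
  Pool.Agent.H21.Cfl.main

end Pool.Agent.Results.MP_51f845_lc.NotEquivalent
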